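import Pool.Agent.Zk95.RB.Mem

/-!
# The directed red-blue cut problem is NP-complete

Given a digraph whose arcs are coloured red or blue and numbers `r`, `b`, it is `NP`-complete to decide
whether some nonempty proper set of vertices is left by at most `r` red and at most `b` blue arcs, and
this remains true for simple digraphs. So there is no polynomial-time algorithm unless `P = NP`.

Idea. In a directed graph a heavy bundle of arcs from every vertex to `s`, and from `t` to every vertex,
does not contribute to the cuts `δ⁺(X)` with `s ∈ X`, `t ∉ X`, and makes all the others too large. So
one may prescribe a source and a sink. Then take a red arc from `s` to each pair `(u, v)` of vertices of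
a given graph, heavy arcs from `(u, v)` to `u` and to `v` (and to `t` if `uv` is an edge), and a blue arc
from each vertex `u` to `t`: a cut with at most `n² - k²` red and at most `k` blue arcs is the same as an
independent set with `k` vertices. Heavy arcs are realised without parallel arcs by replacing each node
by a complete block.

`NPC.InNPP`, `NPC.NPHardP`, `NPC.InPP`: membership in `NP`, hardness for `NP` under polynomial-time
many-one reductions and membership in `P` for the language of the codes of the yes-instances (polynomial
time is Mathlib's `Turing.TM2ComputableInPolyTime`).
-/

set_option autoImplicit false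

namespace Pool.Agent.Results.MP_ac2b6c_lc.NPComplete

open Pool.Agent.NPC Pool.Agent.Zk95.RB

/-- The directed red-blue cut problem is `NP`-complete, also for simple digraphs; if one of the two
problems is in `P`, then `NP` is contained in `P`. -/
theorem result :
    (InNPP RedBlueCut ∧ NPHardP RedBlueCut) ∧
    (InNPP RedBlueCutSimple ∧ NPHardP RedBlueCutSimple) ∧
    ((InPP RedBlueCut ∨ InPP RedBlueCutSimple) → ∀ L : Set (List Bool), InNP L → InP L) :=
  ⟨⟨mem.1, hard.1⟩, ⟨mem.2, hard.2⟩, fun h => h.elim (collapse hard.1) (collapse hard.2)⟩

end Pool.Agent.Results.MP_ac2b6c_lc.NPComplete
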